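import Pool.Agent.H482R3.EB.Cen

set_option autoImplicit false

/-! Project EB (CEN), task AV3: avoiding double cosets. -/

namespace Pool.Agent.H213R2.EB

open Pool.Agent.H482R3.EB
open Pool.Agent.H482R3.EA (W inv ev)

section

variable {S H : Type} [Group H] (f : S → H) (hf : ∀ s, f s * f s = 1)

include hf in
theorem av_inv (s : S) : (f s)⁻¹ = f s := inv_eq_of_mul_eq_one_left (hf s)

include hf in
theorem av_conj (s : S) (x : H) : f s * (f s * x * f s) * f s = x := by
  have h : f s * (f s * x * f s) * f s = (f s * f s) * x * (f s * f s) := by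
    simp only [mul_assoc]
  rw [h, hf, one_mul, mul_one]

include hf in
theorem av_iff (s : S) (x : H) : f s * x * f s = f s ↔ x = f s := by
  constructor
  · intro h
    have h2 := av_conj f hf s x
    rw [h, hf, one_mul] at h2
    exact h2.symm
  · rintro rfl
    rw [hf, one_mul]

open Classical in
/-- the reflections with counter -/
noncomputable def th (s : S) : Equiv.Perm (H × ℤ) where
  toFun p := (f s * p.1 * f s, p.2 + if p.1 = f s then 1 else 0)
  invFun p := (f s * p.1 * f s, p.2 - if p.1 = f s then 1 else 0)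
  left_inv p := by
    obtain ⟨h, n⟩ := p
    simp only [av_conj f hf, av_iff f hf]
    refine Prod.ext rfl ?_
    simp
  right_inv p := by
    obtain ⟨h, n⟩ := p
    simp only [av_conj f hf, av_iff f hf]
    refine Prod.ext rfl ?_
    simp

open Classical in
theorem th_apply (s : S) (h : H) (n : ℤ) :
    th f hf s (h, n) = (f s * h * f s, n + if h = f s then 1 else 0) := rfl

open Classical in
theorem thi_apply (s : S) (h : H) (n : ℤ) :
    (th f hf s)⁻¹ (h, n) = (f s * h * f s, n - if h = f s then 1 else 0) := rfl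

open Classical in
theorem pw (s : S) (a : ℤ) : ∀ (h : H) (n : ℤ), ((th f hf s)⁻¹ ^ a) (h, n) =
    (f s ^ a * h * (f s ^ a)⁻¹, n - if h = f s then a else 0) := by
  have hi := av_inv f hf s
  induction a using Int.induction_on with
  | zero => intro h n; simp
  | succ i ih =>
    intro h n
    rw [zpow_add_one, Equiv.Perm.mul_apply, thi_apply, ih]
    refine Prod.ext ?_ ?_
    · show f s ^ (i : ℤ) * (f s * h * f s) * (f s ^ (i : ℤ))⁻¹ = _
      rw [zpow_add_one, mul_inv_rev, hi]
      simp only [mul_assoc]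
    · show n - (if h = f s then (1 : ℤ) else 0) - (if f s * h * f s = f s then (i : ℤ) else 0) = _
      simp only [av_iff f hf]
      split_ifs <;> omega
  | pred i ih =>
    intro h n
    rw [zpow_sub_one, inv_inv, Equiv.Perm.mul_apply, th_apply, ih]
    refine Prod.ext ?_ ?_
    · show f s ^ (-(i : ℤ)) * (f s * h * f s) * (f s ^ (-(i : ℤ)))⁻¹ = _
      rw [zpow_sub_one, mul_inv_rev, inv_inv, hi]
      simp only [mul_assoc]
    · show n + (if h = f s then (1 : ℤ) else 0) - (if f s * h * f s = f s then (-(i : ℤ)) else 0) = _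
      simp only [av_iff f hf]
      split_ifs <;> omega

theorem wd (u : W S) : ∃ (c : H → H) (N : H → ℤ),
    (∀ h n, ev (fun s => (th f hf s)⁻¹) u (h, n) = (c h, n + N h)) ∧
      ∀ h, |N h| ≤ (u.length : ℤ) := by
  classical
  induction u with
  | nil => exact ⟨id, fun _ => 0, fun h n => by simp [ev], fun h => by simp⟩
  | cons a u ih =>
    obtain ⟨c, N, h1, h2⟩ := ih
    obtain ⟨s, b⟩ := a
    cases b
    · refine ⟨fun h => f s * c h * f s, fun h => N h + if c h = f s then 1 else 0, ?_, ?_⟩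
      · intro h n
        have : ev (fun s => (th f hf s)⁻¹) ((s, false) :: u) =
            ((th f hf s)⁻¹)⁻¹ * ev (fun s => (th f hf s)⁻¹) u := by
          simp [ev]
        rw [this, inv_inv, Equiv.Perm.mul_apply, h1, th_apply, add_assoc]
      · intro h
        have := abs_le.mp (h2 h)
        rw [List.length_cons, abs_le]
        push_cast
        show -((u.length : ℤ) + 1) ≤ N h + (if c h = f s then 1 else 0) ∧
          N h + (if c h = f s then 1 else 0) ≤ (u.length : ℤ) + 1
        split_ifs <;> omega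
    · refine ⟨fun h => f s * c h * f s, fun h => N h - if c h = f s then 1 else 0, ?_, ?_⟩
      · intro h n
        have : ev (fun s => (th f hf s)⁻¹) ((s, true) :: u) =
            (th f hf s)⁻¹ * ev (fun s => (th f hf s)⁻¹) u := by
          simp [ev]
        rw [this, Equiv.Perm.mul_apply, h1, thi_apply, add_sub_assoc]
      · intro h
        have := abs_le.mp (h2 h)
        rw [List.length_cons, abs_le]
        push_cast
        show -((u.length : ℤ) + 1) ≤ N h - (if c h = f s then 1 else 0) ∧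
          N h - (if c h = f s then 1 else 0) ≤ (u.length : ℤ) + 1
        split_ifs <;> omega

/-- alternating products -/
noncomputable def TT : ℕ → S → S → Equiv.Perm (H × ℤ)
  | 0, _, _ => 1
  | n + 1, x, y => TT n y x * th f hf x

def cc : ℕ → S → S → H
  | 0, _, _ => 1
  | n + 1, x, y => cc n y x * f x

theorem alt_prod (n : ℕ) : ∀ s t : S,
    ((alt s t n).map (fun s => (th f hf s)⁻¹)).prod = (TT f hf n s t)⁻¹ := by
  induction n with
  | zero => intro s t; simp [alt, TT]
  | succ n ih =>
    intro s t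
    rw [alt, List.map_cons, List.prod_cons, ih, TT, mul_inv_rev]

include hf in
theorem mm (x y : S) (n : ℕ) : f x * (f y * f x) ^ n * f y = (f x * f y) ^ (n + 1) := by
  induction n with
  | zero => simp
  | succ n ih =>
    rw [pow_succ (f x * f y), ← ih, pow_succ]
    simp only [mul_assoc]

open Classical in
theorem TT_apply (n : ℕ) : ∀ (x y : S) (h : H) (k : ℤ), TT f hf n x y (h, k) =
    (cc f n x y * h * (cc f n x y)⁻¹,
      k + ∑ i ∈ Finset.range n, if h = (f x * f y) ^ i * f x then (1 : ℤ) else 0) := by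
  induction n with
  | zero => intro x y h k; simp [TT, cc]
  | succ n ih =>
    intro x y h k
    rw [TT, Equiv.Perm.mul_apply, th_apply, ih]
    refine Prod.ext ?_ ?_
    · show cc f n y x * (f x * h * f x) * (cc f n y x)⁻¹ = _
      rw [cc, mul_inv_rev, av_inv f hf x]
      simp only [mul_assoc]
    · show k + (if h = f x then (1 : ℤ) else 0) +
        ∑ i ∈ Finset.range n, (if f x * h * f x = (f y * f x) ^ i * f y then (1 : ℤ) else 0) = _
      rw [Finset.sum_range_succ', add_assoc]
      have h0 : (if h = (f x * f y) ^ 0 * f x then (1 : ℤ) else 0) = if h = f x then 1 else 0 := by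
        rw [pow_zero, one_mul]
      rw [h0, add_comm (∑ i ∈ Finset.range n, _)]
      congr 2
      refine Finset.sum_congr rfl fun i _ => ?_
      have : f x * h * f x = (f y * f x) ^ i * f y ↔ h = (f x * f y) ^ (i + 1) * f x := by
        rw [← mm f hf x y i]
        constructor
        · intro h3
          rw [← av_conj f hf x h, h3]
          simp only [mul_assoc]
        · intro h3
          rw [h3]
          have := av_conj f hf x ((f y * f x) ^ i * f y)
          rw [← this]
          simp only [mul_assoc]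
      simp only [this]

include hf in
theorem cc_mul (n : ℕ) : ∀ x y : S, (cc f n x y)⁻¹ * cc f n y x = (f x * f y) ^ n := by
  induction n with
  | zero => intro x y; simp [cc]
  | succ n ih =>
    intro x y
    rw [cc, cc, mul_inv_rev, av_inv f hf x, ← mm f hf x y n, ← ih y x]
    simp only [mul_assoc]

theorem TT_comm (M : ℕ) (hM : M ≠ 0) (x y : S) (h : (f x * f y) ^ M = 1) :
    TT f hf M x y = TT f hf M y x := by
  classical
  ext1 ⟨p, k⟩
  rw [TT_apply, TT_apply]
  have h1 : cc f M x y = cc f M y x := by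
    have := cc_mul f hf M x y
    rw [h, inv_mul_eq_one] at this
    exact this
  rw [h1]
  refine Prod.ext rfl ?_
  show k + _ = k + _
  congr 1
  rw [← Finset.sum_range_reflect (fun i => if p = (f y * f x) ^ i * f y then (1 : ℤ) else 0)]
  refine Finset.sum_congr rfl fun i hi => ?_
  have hi' := Finset.mem_range.mp hi
  have e1 : (f x * f y) ^ (M - 1) * f x = f y := by
    have e2 : f x = (f x * f y) * f y := by rw [mul_assoc, hf, mul_one]
    have e3 : (f x * f y) ^ (M - 1) * ((f x * f y) * f y) = f y := by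
      rw [← mul_assoc, ← pow_succ, Nat.sub_add_cancel (by omega), h, one_mul]
    rw [← e2] at e3
    exact e3
  have e4 : (f x * f y) ^ (M - 1 - i) * ((f x * f y) ^ i * f x) = f y := by
    rw [← mul_assoc, ← pow_add]
    have : M - 1 - i + i = M - 1 := by omega
    rw [this, e1]
  have e5 : f y * f x = (f x * f y)⁻¹ := by
    rw [mul_inv_rev, av_inv f hf, av_inv f hf]
  have e6 : (f x * f y) ^ i * f x = (f y * f x) ^ (M - 1 - i) * f y := by
    rw [e5, inv_pow, eq_inv_mul_iff_mul_eq]
    exact e4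
  rw [e6]

end

theorem av_pick {H : Type} {P1 P2 P3 : H} (h12 : P1 ≠ P2) (h23 : P2 ≠ P3) (h13 : P1 ≠ P3)
    (A B : H) : ∃ P, (P = P1 ∨ P = P2 ∨ P = P3) ∧ P ≠ A ∧ P ≠ B := by
  classical
  by_contra hc
  push Not at hc
  have a1 := hc P1 (Or.inl rfl)
  have a2 := hc P2 (Or.inr (Or.inl rfl))
  have a3 := hc P3 (Or.inr (Or.inr rfl))
  by_cases b1 : P1 = A
  · have c2 := a2 (fun h => h12 (b1.trans h.symm))
    have c3 := a3 (fun h => h13 (b1.trans h.symm))
    exact h23 (c2.trans c3.symm)
  · have c1 := a1 b1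
    by_cases b2 : P2 = A
    · have c3 := a3 (fun h => h23 (b2.trans h.symm))
      exact h13 (c1.trans c3.symm)
    · exact h12 (c1.trans (a2 b2).symm)

theorem t_AV3 (hG : S_GEO) (hL : S_LIFTR) (hSur : S_SUR) : S_AV3 := by
  classical
  intro S m hsym hm hstu L
  obtain ⟨s, t, u, hst, htu, hsu⟩ := hstu
  obtain ⟨H, _, f, hf, hfm, hinj⟩ := hG S m hsym hm
  obtain ⟨φ, hφ1, hφ2⟩ := hL S (Equiv.Perm (H × ℤ)) inferInstance m
    (fun s => (th f hf s)⁻¹) (by
      intro s t hst hmst
      rw [alt_prod, alt_prod, TT_comm f hf (m s t) hmst s t (hfm s t hst hmst)])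
  have hC : ∀ g : AR m, ∃ C : ℕ, ∃ (c : H → H) (N : H → ℤ),
      (∀ h n, φ g (h, n) = (c h, n + N h)) ∧ ∀ h, |N h| ≤ (C : ℤ) := by
    intro g
    obtain ⟨w, rfl⟩ := hSur S m g
    rw [hφ2]
    exact ⟨w.length, wd f hf w⟩
  choose C hC using hC
  obtain ⟨K, hK⟩ : ∃ K : ℕ, ∀ x ∈ L, C x.1 ≤ K :=
    ⟨(L.map (fun x => C x.1)).sum, fun x hx =>
      List.single_le_sum (by simp) _ (List.mem_map_of_mem (f := fun x => C x.1) hx)⟩
  have hpw : ∀ (s : S) (a : ℤ) (h : H) (n : ℤ), φ (gR m s ^ a) (h, n) =
      (f s ^ a * h * (f s ^ a)⁻¹, n - if h = f s then a else 0) := by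
    intro s a h n
    rw [map_zpow, hφ1]
    exact pw f hf s a h n
  have hev : ∀ (s : S) (h : H) (n : ℤ), φ (gR m s ^ (2 * ((K : ℤ) + 1))) (h, n) =
      (h, n - if h = f s then 2 * ((K : ℤ) + 1) else 0) := by
    intro s h n
    rw [hpw]
    have : f s ^ (2 * ((K : ℤ) + 1)) = 1 := by
      rw [zpow_mul]
      have : f s ^ (2 : ℤ) = 1 := by
        rw [zpow_two]; exact hf s
      rw [this, one_zpow]
    rw [this, one_mul, inv_one, mul_one]
  refine ⟨gR m s ^ (2 * ((K : ℤ) + 1)) * gR m t ^ (2 * ((K : ℤ) + 1)) *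
    gR m u ^ (2 * ((K : ℤ) + 1)), ?_⟩
  intro x hx a b he
  obtain ⟨g, w, w'⟩ := x
  simp only at he
  have f1 : f s ≠ f t := fun h => hst (hinj h)
  have f2 : f t ≠ f u := fun h => htu (hinj h)
  have f3 : f s ≠ f u := fun h => hsu (hinj h)
  obtain ⟨P, hP, hPA, hPB⟩ := av_pick f1 f2 f3 (f w') ((f w' ^ b)⁻¹ * f w * f w' ^ b)
  have hl : φ (gR m s ^ (2 * ((K : ℤ) + 1)) * gR m t ^ (2 * ((K : ℤ) + 1)) *
      gR m u ^ (2 * ((K : ℤ) + 1))) (P, 0) = (P, -(2 * ((K : ℤ) + 1))) := by
    rw [map_mul, map_mul, Equiv.Perm.mul_apply, Equiv.Perm.mul_apply, hev, hev, hev]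
    refine Prod.ext rfl ?_
    show (0 : ℤ) - (if P = f u then _ else 0) - (if P = f t then _ else 0) -
      (if P = f s then _ else 0) = _
    rcases hP with rfl | rfl | rfl
    · rw [if_neg f3, if_neg f1, if_pos rfl]; ring
    · rw [if_neg f2, if_pos rfl, if_neg f1.symm]; ring
    · rw [if_pos rfl, if_neg f2.symm, if_neg f3.symm]; ring
  obtain ⟨c, N, hc1, hc2⟩ := hC g
  have hr : φ (g * gR m w ^ a * gR m w' ^ b) (P, 0) =
      (c (f w ^ a * (f w' ^ b * P * (f w' ^ b)⁻¹) * (f w ^ a)⁻¹),
        0 + N (f w ^ a * (f w' ^ b * P * (f w' ^ b)⁻¹) * (f w ^ a)⁻¹)) := by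
    rw [map_mul, map_mul, Equiv.Perm.mul_apply, Equiv.Perm.mul_apply, hpw w' b, if_neg hPA, hpw w a,
      if_neg, hc1]
    · simp
    · intro h4
      apply hPB
      rw [← h4]
      group
  rw [he, hr] at hl
  have h5 := congrArg Prod.snd hl
  simp only [zero_add] at h5
  have h6 := hc2 (f w ^ a * (f w' ^ b * P * (f w' ^ b)⁻¹) * (f w ^ a)⁻¹)
  rw [h5] at h6
  have h7 : (C g : ℤ) ≤ K := by exact_mod_cast hK _ hx
  rw [abs_le] at h6
  have h8 : (0 : ℤ) ≤ K := by positivity
  omega

end Pool.Agent.H213R2.EB
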