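import Pool.Agent.H482R3.EB.Stm

set_option autoImplicit false

/-! Project EB, task DICB: dictionary between words and the system. -/

namespace Pool.Agent.H213R2.EB

open Pool.Agent.H482R3.EB
open Pool.Agent.H482R3.EA (W inv ev PP xx evF cond1 cond2 cV cW LIdx Syl gOf iW iV letF valS
  Sys St Near InD Adm Act)

section

variable {V Wt : Type}

theorem dic_triv (hS : Pool.Agent.H482R3.EA.S_EV) (c : V ⊕ Wt → V ⊕ Wt → ℕ) (g' g : W Wt) :
    TR (cW c) (inv g' ++ g) ↔ gEl c g' = gEl c g := by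
  have h := hS Wt (AR (cW c)) inferInstance (gR (cW c))
  unfold TR gEl
  rw [h.1, h.2.1, inv_mul_eq_one]

theorem dic_inz (hT : S_TOT) (hW : S_WPW) (hS : Pool.Agent.H482R3.EA.S_EV)
    (c : V ⊕ Wt → V ⊕ Wt → ℕ) (w : Wt) (u : W Wt) :
    inz c w u ↔ ev (gR (cW c)) u ∈ Subgroup.zpowers (gR (cW c) w) := by
  have h := hS Wt (AR (cW c)) inferInstance (gR (cW c))
  obtain ⟨t1, t2, t3, t4, t5, t6⟩ := hT Wt (cW c)
  obtain ⟨w1, w2, w3⟩ := hW Wt (AR (cW c)) inferInstance (gR (cW c)) w (-(tot u))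
  unfold inz TR
  rw [h.1, w1, zpow_neg, mul_inv_eq_one]
  constructor
  · intro h1
    rw [h1]
    exact ⟨tot u, rfl⟩
  · rintro ⟨n, hn⟩
    simp only at hn
    have h3 := t1 u
    rw [← hn, t4] at h3
    rw [← h3, hn]

theorem dic_inz' (hT : S_TOT) (hW : S_WPW) (hS : Pool.Agent.H482R3.EA.S_EV)
    (c : V ⊕ Wt → V ⊕ Wt → ℕ) (w : Wt) (g' g : W Wt) :
    inz c w (inv g' ++ g) ↔
      (QuotientGroup.mk (gEl c g') : AR (cW c) ⧸ Subgroup.zpowers (gR (cW c) w)) =
        QuotientGroup.mk (gEl c g) := by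
  have h := hS Wt (AR (cW c)) inferInstance (gR (cW c))
  rw [dic_inz hT hW hS, h.1, h.2.1, QuotientGroup.eq]
  rfl

end

theorem t_DICB (hT : S_TOT) (hW : S_WPW) (hS : Pool.Agent.H482R3.EA.S_EV) : S_DICB := by
  intro V Wt c h s g v hok
  rcases s with _ | ⟨g', v', b, n⟩ | ⟨g', y⟩ | ⟨g', v', w', y⟩
  · exact ⟨Iff.rfl, Iff.rfl, fun _ _ => Iff.rfl⟩
  · refine ⟨?_, ?_, ?_⟩
    · show (TR (cW c) (inv g' ++ g) ∨
        (v = v' ∧ ∃ w, c (.inl v) (.inr w) ≠ 0 ∧ inz c w (inv g' ++ g))) ↔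
        ∃ m : LnB c, IB c (gEl c g', v') m ∧ IB c (gEl c g, v) m
      rw [dic_triv hS]
      constructor
      · rintro (h1 | ⟨rfl, w, hc, h1⟩)
        · exact ⟨Sum.inl (gEl c g), h1, rfl⟩
        · rw [dic_inz' hT hW hS] at h1
          exact ⟨Sum.inr ⟨⟨(v, w), hc⟩, QuotientGroup.mk (gEl c g)⟩, ⟨rfl, h1⟩, ⟨rfl, rfl⟩⟩
      · rintro ⟨m | ⟨⟨⟨v1, w1⟩, hc⟩, x⟩, h1, h2⟩
        · left
          exact (show gEl c g' = m from h1).trans (show gEl c g = m from h2).symm
        · right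
          obtain ⟨h1a, h1b⟩ := h1
          obtain ⟨h2a, h2b⟩ := h2
          have e1 : v' = v1 := h1a
          have e2 : v = v1 := h2a
          subst e1
          subst e2
          refine ⟨rfl, w1, hc, ?_⟩
          rw [dic_inz' hT hW hS]
          exact h1b.trans h2b.symm
    · show TR (cW c) (inv g' ++ g) ↔ gEl c g' = gEl c g
      exact dic_triv hS c g' g
    · intro w hc
      show (v = v' ∧ inz c w (inv g' ++ g)) ↔ (v' = v ∧
        (QuotientGroup.mk (gEl c g') : AR (cW c) ⧸ Subgroup.zpowers (gR (cW c) w)) =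
          QuotientGroup.mk (gEl c g))
      rw [dic_inz' hT hW hS]
      constructor
      · rintro ⟨h1, h2⟩; exact ⟨h1.symm, h2⟩
      · rintro ⟨h1, h2⟩; exact ⟨h1.symm, h2⟩
  · refine ⟨?_, ?_, ?_⟩
    · show TR (cW c) (inv g' ++ g) ↔ gEl c g = gEl c g'
      rw [dic_triv hS]
      exact eq_comm
    · show TR (cW c) (inv g' ++ g) ↔ (Sum.inl (gEl c g) : LnB c) = Sum.inl (gEl c g')
      rw [dic_triv hS]
      constructor
      · intro h1; rw [h1]
      · intro h1; exact (Sum.inl_injective h1).symm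
    · intro w hc
      show False ↔ (Sum.inr ⟨(⟨(v, w), hc⟩ : LIdx c), QuotientGroup.mk (gEl c g)⟩ : LnB c) =
        Sum.inl (gEl c g')
      constructor
      · exact False.elim
      · intro h1; cases h1
  · have hc' : c (.inl v') (.inr w') ≠ 0 := hok
    have hst : stO c h (some (.inr (.inr (g', v', w', y)))) =
        .ln (Sum.inr ⟨(⟨(v', w'), hc'⟩ : LIdx c), QuotientGroup.mk (gEl c g')⟩ : LnB c) := by
      show (if hc : c (.inl v') (.inr w') ≠ 0 then _ else _) = _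
      rw [dif_pos hc']
    rw [hst]
    refine ⟨?_, ?_, ?_⟩
    · show (v = v' ∧ inz c w' (inv g' ++ g)) ↔ (v = v' ∧
        (QuotientGroup.mk (gEl c g) : AR (cW c) ⧸ Subgroup.zpowers (gR (cW c) w')) =
          QuotientGroup.mk (gEl c g'))
      rw [dic_inz' hT hW hS]
      constructor
      · rintro ⟨h1, h2⟩; exact ⟨h1, h2.symm⟩
      · rintro ⟨h1, h2⟩; exact ⟨h1, h2.symm⟩
    · show False ↔ (Sum.inl (gEl c g) : LnB c) =
        Sum.inr ⟨(⟨(v', w'), hc'⟩ : LIdx c), QuotientGroup.mk (gEl c g')⟩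
      constructor
      · exact False.elim
      · intro h1; cases h1
    · intro w hc
      show (v = v' ∧ w = w' ∧ inz c w (inv g' ++ g)) ↔
        (Sum.inr ⟨(⟨(v, w), hc⟩ : LIdx c), QuotientGroup.mk (gEl c g)⟩ : LnB c) =
        Sum.inr ⟨(⟨(v', w'), hc'⟩ : LIdx c), QuotientGroup.mk (gEl c g')⟩
      rw [dic_inz' hT hW hS]
      constructor
      · rintro ⟨rfl, rfl, h2⟩
        rw [h2]
      · intro h1
        have h2 := Sum.inr_injective h1
        obtain ⟨h3, h4⟩ := Sigma.mk.inj h2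
        have h5 := congrArg Subtype.val h3
        have h6 : v = v' := congrArg Prod.fst h5
        have h7 : w = w' := congrArg Prod.snd h5
        subst h6
        subst h7
        exact ⟨rfl, rfl, (eq_of_heq h4).symm⟩

end Pool.Agent.H213R2.EB
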